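import Pool.Agent.P.MP_e0c037_lc.Main

namespace Pool.Agent.P.MP_e0c037_lc.Old.DiamondPolyTime

open Pool.Agent.P.MP_e0c037_lc

/-- At every point `(q, v)` of the open diamond region the sign of the dichromatic polynomial of a
multigraph is computed by a polynomial-time Turing machine. -/
theorem result (q w v : ℝ) (hq : q ∈ Set.Ioo (0 : ℝ) 1 ∪ Set.Ioo 1 (32 / 27))
    (hw : IsMiddleRoot q w) (h1 : q / w < v) (h2 : v < w) :
    ∃ f : ℕ × List (ℕ × ℕ) → ℤ,
      Nonempty (Turing.TM2ComputableInPolyTime encGraph encInt f) ∧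
      ∀ (n : ℕ) (L : List (ℕ × ℕ)), (∀ e ∈ L, e.1 < n ∧ e.2 < n) →
        f (n, L) = (SignType.sign (dichromatic n L q v) : ℤ) :=
  polytime_diamond hq hw h1 h2

end Pool.Agent.P.MP_e0c037_lc.Old.DiamondPolyTime
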