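import Pool.Agent.P.MP_e0c037_lc.FL.Final

namespace Pool.Agent.P.MP_e0c037_lc.Old.R3Easy

open Pool.Agent.P.MP_e0c037_lc

/-- For all real `q ≥ exp 33488` and `v ≤ -q` the sign of the dichromatic polynomial is computed
in polynomial time; it is `(-1) ^ |E|` for every multigraph when `v < -q` and for every bridgeless
multigraph when `v = -q`. -/
theorem result (q v : ℝ) (hq : Real.exp 33488 ≤ q) (hv : v ≤ -q) :
    ∃ f : ℕ × List (ℕ × ℕ) → ℤ,
      Nonempty (Turing.TM2ComputableInPolyTime encGraph encInt f) ∧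
      ∀ (n : ℕ) (L : List (ℕ × ℕ)), (∀ e ∈ L, e.1 < n ∧ e.2 < n) →
        f (n, L) = (SignType.sign (dichromatic n L q v) : ℤ) ∧
        ((v < -q ∨ ∀ i < L.length,
            comps n L ((Finset.range L.length).erase i) = comps n L (Finset.range L.length)) →
          f (n, L) = (-1) ^ L.length) :=
  FL.polytime_large hq hv

end Pool.Agent.P.MP_e0c037_lc.Old.R3Easy
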