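import Pool.Agent.P.MP_e0c037_lc.R3.Main

namespace Pool.Agent.P.MP_e0c037_lc.Old.R3Hard

open Pool.Agent.P.MP_e0c037_lc.R3

/-- For every non-integer `q` with `3 < q < 4 + 2 √2` the sign problem is `#P`-hard at every point
`(q, v)` with `v ≤ -q`. -/
theorem result (q v : ℝ) (h1 : 3 < q) (h2 : q < 4 + 2 * √2) (hq : ∀ k : ℕ, q ≠ k) (hv : v ≤ -q)
    (f : List Bool → ℕ) (hf : SharpP f) : Reduces f q v :=
  (hard h1.le h2 hq).2 v hv f hf

end Pool.Agent.P.MP_e0c037_lc.Old.R3Hard
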