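import Pool.Agent.P.MP_e0c037_lc.SG.Final

namespace Pool.Agent.P.MP_e0c037_lc.Old.Segments

open Pool.Agent.P.MP_e0c037_lc

/-- On the lines `y = -1` (`v = -2`) and `x = -1` (`v = -q / 2`) with `0 < q ≤ 32 / 27`, the sign
problem is solved by a polynomial-time Turing machine when `q ≤ 1` and every counting function in
the class `SharpP` reduces to it when `q > 1`. -/
theorem result (q v : ℝ) (h0 : 0 < q) (h1 : q ≤ 32 / 27) (hv : v = -2 ∨ v = -q / 2) :
    (q ≤ 1 → ∃ f : ℕ × List (ℕ × ℕ) → ℤ,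
      Nonempty (Turing.TM2ComputableInPolyTime encGraph encInt f) ∧
      ∀ (n : ℕ) (L : List (ℕ × ℕ)), (∀ e ∈ L, e.1 < n ∧ e.2 < n) →
        f (n, L) = (SignType.sign (dichromatic n L q v) : ℤ)) ∧
    (1 < q → ∀ f : List Bool → ℕ, R3.SharpP f → R3.Reduces f q v) :=
  ⟨fun h => (SG.easy_seg h0 h hv).tm, fun h => SG.hard_seg' h h1 hv⟩

end Pool.Agent.P.MP_e0c037_lc.Old.Segments
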